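import Mathlib
import Pool.Agent.X21.Ce.A8

/-!
# Non-vanishing at the central point in `S_n`-extensions with `9 ord ζ_E < (n - 2)²`

`Pool.Agent.H541R3.ART.Irr G` is the set of irreducible complex characters of the finite group `G`.

`Pool.Agent.H541R3.ART.ArtinData G s₀` is a family of functions with the formal properties of the
Artin L-functions of a Galois extension `E/K` with group `G` near a point `s₀ ≠ 1`: functions `L χ`
for the irreducible characters `χ` of `G`, meromorphic and not identically zero near `s₀` (Brauer),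
and `Lin H ψ` for the linear characters `ψ` of the subgroups `H`, without pole at `s₀` (Artin
reciprocity and Hecke), such that `Lin H ψ` is the product of the `L χ ^ ⟨χ|_H, ψ⟩` (induction). In
particular `Lin ⊥ 1` stands for the Dedekind zeta function of `E`, and `Lin H 1` for that of the
fixed field `E^H`.

`Pool.Agent.X21.Ce.nu χ` is the Frobenius-Schur indicator `|G|⁻¹ ∑ χ (g²)`.

`Pool.Agent.X21.Ce.CentralData G` is `ArtinData G (1 / 2)` together with the functional equation:
for every orthogonal (`nu φ = 1`) irreducible character `φ` of a subgroup `H` the function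
`P(s) = ∏ L χ (s) ^ ⟨χ|_H, φ⟩` (the L-function of `φ` over the fixed field of `H`) satisfies
`γ(s) P(s) = γ(1 - s) P(1 - s)` near `1 / 2` for some `γ` which is analytic and not zero at `1 / 2`
(functional equation of Artin and Hecke; the root number is `1` by the theorem of Fröhlich and
Queyranne).

`Pool.Agent.X21.Qd.IsRel A H η F` says that `F` is, near `1 / 2`, the Artin L-function of the
character `η` of `H = Gal(E/E^H)`, i.e. the product of the `L χ ^ ⟨χ|_H, η⟩`.

`Pool.Agent.X21.Sy.fx g` is the number of fixed points of the permutation `g`, and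
`Pool.Agent.X21.Qd.Small n g` says that `g` has no cycle of prime length `p` with `n < 2p + 2`.
`Pool.Agent.X21.Qd.orbNum H X ψ` is the number of orbits of `H` on `X` on whose point stabilizers
`ψ` is trivial.
-/

set_option autoImplicit false

open Pool.Agent.H541R3.ART Pool.Agent.X21.Sy Pool.Agent.X21.Qd Pool.Agent.X21.Ce Equiv

open scoped Classical in
/-- Let `E/K` be a Galois extension with group `S_n`, `n ≥ 28`, and let the order `r` of `ζ_E` at
the central point `1 / 2` satisfy `9 r < (n - 2)²`. Every character of every subgroup has its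
L-function `F` (for linear characters it is `Lin H ψ`). The number `r` is even, and there is a
natural number `c` such that for every subgroup `H` of `A_n`:
(1) Let `η` be an irreducible character of `H` which vanishes on the elements with a cycle of prime
length `p`, `n < 2p + 2`. Then `L(s, η, E/E^H)` is holomorphic at `1 / 2`, of order `2 c d` where `d`
is the multiplicity of `η` in the permutation character of degree `n`, plus `r - 2 c n` if `η = 1`;
in particular, if `η ≠ 1` does not occur in the permutation character, then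
`L(1 / 2, η, E/E^H) ≠ 0`.
(2) If the order of `H` is prime to the primes `p` with `n < 2p + 2` and `ψ` is a linear character of
`H`, then the order of `L(s, ψ, E/E^H)` at `1 / 2` is `2 c` times the number of the orbits of `H` on
whose point stabilizers `ψ` is trivial, plus `r - 2 c n` if `ψ = 1`.
(3) For such `H`, subgroups `U` of `H`, and linear characters `ρ` of `H`, the quotient
`L(s, ρ|_U, E/E^U) / L(s, ρ, E/E^H)` is holomorphic at `1 / 2`; for `ρ = 1` this is the quotient
`ζ_{E^U} / ζ_{E^H}`. -/
theorem Pool.Agent.Results.MP_347b49_nt.CentralQuadratic.result :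
    ∀ n : ℕ, 28 ≤ n → ∀ (A : CentralData (Perm (Fin n))) (r : ℕ),
      meromorphicOrderAt (A.Lin ⊥ 1) (1 / 2) = (r : WithTop ℤ) → 9 * r < (n - 2) * (n - 2) →
    ((∀ (H : Subgroup (Perm (Fin n))) (η : H → ℂ), η ∈ Irr H →
        ∃ F, IsRel A.toArtinData H η F) ∧
      (∀ (H : Subgroup (Perm (Fin n))) (ψ : H →* ℂˣ),
        IsRel A.toArtinData H (fun h => ((ψ h : ℂˣ) : ℂ)) (A.Lin H ψ))) ∧
    Even r ∧ ∃ c : ℕ, ∀ H : Subgroup (Perm (Fin n)), H ≤ alternatingGroup (Fin n) →
      (∀ η ∈ Irr H, (∀ h : H, ¬ Small n (h : Perm (Fin n)) → η h = 0) →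
        ∃ d : ℕ, ∑ᶠ h : H, (fx (h : Perm (Fin n)) : ℂ) * η h⁻¹ = (d : ℂ) * Nat.card H ∧
          ∀ F : ℂ → ℂ, IsRel A.toArtinData H η F →
            0 ≤ meromorphicOrderAt F (1 / 2) ∧ meromorphicOrderAt F (1 / 2)
              = ((2 * ((if η = 1 then ((r / 2 : ℕ) : ℤ) - c * n else 0) + c * d) : ℤ)
                : WithTop ℤ)) ∧
      ((∀ p : ℕ, p.Prime → n < 2 * p + 2 → ¬ p ∣ Nat.card H) →
        (∀ ψ : H →* ℂˣ, meromorphicOrderAt (A.Lin H ψ) (1 / 2)
          = ((2 * ((if ψ = 1 then ((r / 2 : ℕ) : ℤ) - c * n else 0) + c * orbNum H (Fin n) ψ) : ℤ)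
            : WithTop ℤ)) ∧
        ∀ (U : Subgroup (Perm (Fin n))) (hU : U ≤ H) (ρ : H →* ℂˣ),
          meromorphicOrderAt (A.Lin H ρ) (1 / 2)
            ≤ meromorphicOrderAt (A.Lin U (ρ.comp (Subgroup.inclusion hU))) (1 / 2)) := by
  intro n hn A r hr hlt
  refine ⟨⟨fun H η hη => exists_rel A.toArtinData H hη, fun H ψ => rel_lin A.toArtinData H ψ⟩, ?_⟩
  obtain ⟨he, c, hc⟩ := central_quad hn A hr hlt
  obtain ⟨c', hc'⟩ := central_ded_quad hn A hr hlt
  refine ⟨he, c, fun H hH => ⟨(hc H hH).1, fun hp => ⟨(hc H hH).2 hp, fun U hU ρ => ?_⟩⟩⟩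
  exact (hc' U H hU hH hp).2 ρ
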