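import Pool.Agent.X22.EQ15
import Pool.Agent.X22.EQ23

/-!
# A normal law for the central values of the truncated quotients of Dedekind zeta functions in arbitrarily thin families of fields

Nothing is used besides Mathlib in the statement.
-/

set_option autoImplicit false

namespace Pool.Agent.Results.MP_347b49_nt.FewDigitCentralLaw

open Finset

/-- The number of the monic irreducible polynomials of degree `k` over `ℤ/p` which divide `f` modulo `p`. If `p` does not divide the discriminant of `f`, this is the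
number of the primes of norm `p ^ k` of `K = ℚ[X]/(f)`. -/
noncomputable def primesAbove (p k : ℕ) (f : Polynomial ℤ) : ℕ :=
  Nat.card {q : Polynomial (ZMod p) // q.Monic ∧ Irreducible q ∧ q.natDegree = k ∧ q ∣ f.map (Int.castRingHom (ZMod p))}

/-- The Euler factor of `ζ_K (s) / ζ (s)`, `K = ℚ[X]/(f)`, at the prime `p` and the point `s = 1 / 2`. -/
noncomputable def factor (p : ℕ) (f : Polynomial ℤ) : ℝ :=
  (1 - 1 / Real.sqrt p) * ∏ k ∈ Icc 1 f.natDegree, ((1 - 1 / Real.sqrt p ^ k)⁻¹) ^ primesAbove p k f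

/-- The product of the Euler factors over the primes `p ≤ x`. -/
noncomputable def product (f : Polynomial ℤ) (x : ℕ) : ℝ := ∏ p ∈ (range (x + 1)).filter Nat.Prime, factor p f

/-- The value of the linear form `∑ a_l m_l`. -/
def form {d : ℕ} (a : Fin d → ℤ) (m : Fin d → ℕ) : ℤ := ∑ l, (m l : ℤ) * a l

/-- The condition on the two linear forms `a`, `e`: one variable occurs only in `a` and one only in `e`, both with coefficient `1`. -/
def Free {d : ℕ} (a e : Fin d → ℤ) : Prop := ∃ l₀ l₁, a l₀ = 1 ∧ e l₀ = 0 ∧ a l₁ = 0 ∧ e l₁ = 1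

/-- The member `g + a (m) X + e (m)` of the family. -/
noncomputable def member {d : ℕ} (g : Polynomial ℤ) (a e : Fin d → ℤ) (m : Fin d → ℕ) : Polynomial ℤ :=
  g + Polynomial.C (form a m) * Polynomial.X + Polynomial.C (form e m)

/-- The digit number `i` (counted from the right, beginning with `0`) of `n` in base `b`. -/
def digit (b i n : ℕ) : ℕ := n / b ^ i % b

/-- The number which arises from the number `N` with at most `K` digits in base `b`, if for every `i ∈ S`
the digit number `i` is replaced by `f i`. -/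
def change (b K N : ℕ) (f : ℕ → ℕ) (S : Finset ℕ) : ℕ :=
  ∑ i ∈ range K, (if i ∈ S then f i else digit b i N) * b ^ i

open Classical in
/-- The number of the choices of `s l` of `K l` positions for all `l < d` for which the vector of the numbers obtained by
changing the digits of the `N l` at the chosen positions (according to `f l`) has the property `E`. -/
noncomputable def choices {d : ℕ} (b : ℕ) (K s N : Fin d → ℕ) (f : Fin d → ℕ → ℕ) (E : (Fin d → ℕ) → Prop) : ℕ :=
  ((Fintype.piFinset (fun l => powersetCard (s l) (range (K l)))).filter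
    (fun S => E (fun l => change b (K l) (N l) (f l) (S l)))).card

open Pool.Agent.X22.EQ Pool.Agent.TH894.NE

private lemma sqrt_prime (p : ℕ) (hp : p.Prime) : 1 < Real.sqrt p := by
  have h1 : (1 : ℝ) < p := by exact_mod_cast hp.one_lt
  rw [← Real.sqrt_one]
  exact Real.sqrt_lt_sqrt (by norm_num) h1

private lemma one_sub_pos (p k : ℕ) (hp : p.Prime) (hk : 1 ≤ k) : 0 < 1 - 1 / Real.sqrt p ^ k := by
  have h1 := sqrt_prime p hp
  have h2 : 1 < Real.sqrt p ^ k := one_lt_pow₀ h1 (by omega)
  have h3 : 1 / Real.sqrt p ^ k < 1 := by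
    rw [div_lt_one (by linarith)]
    exact h2
  linarith

private lemma factor_pos (p : ℕ) (hp : p.Prime) (f : Polynomial ℤ) : 0 < factor p f := by
  unfold factor
  have h1 := one_sub_pos p 1 hp le_rfl
  rw [pow_one] at h1
  refine mul_pos h1 (prod_pos fun k hk => pow_pos (inv_pos.2 (one_sub_pos p k hp (mem_Icc.1 hk).1)) _)

private lemma log_factor (p : ℕ) (hp : p.Prime) (f : Polynomial ℤ) (n : ℕ) (hn : f.natDegree = n) :
    Real.log (factor p f) = lk p n (f.map (Int.castRingHom (ZMod p))) := by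
  have h1 := one_sub_pos p 1 hp le_rfl
  rw [pow_one] at h1
  have h2 : ∀ k ∈ Icc 1 f.natDegree, ((1 - 1 / Real.sqrt p ^ k)⁻¹) ^ primesAbove p k f ≠ 0 :=
    fun k hk => (pow_pos (inv_pos.2 (one_sub_pos p k hp (mem_Icc.1 hk).1)) _).ne'
  have h3 : ∑ k ∈ Icc 1 n, Real.log (((1 - 1 / Real.sqrt p ^ k)⁻¹) ^ primesAbove p k f) =
      -∑ k ∈ Icc 1 n, (nk p k (f.map (Int.castRingHom (ZMod p))) : ℝ) * Real.log (1 - 1 / Real.sqrt p ^ k) := by
    rw [← sum_neg_distrib]
    refine sum_congr rfl fun k _ => ?_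
    rw [Real.log_pow, Real.log_inv]
    unfold primesAbove nk
    ring
  unfold factor lk
  rw [Real.log_mul h1.ne' (prod_ne_zero_iff.2 h2), Real.log_prod h2, hn, h3]
  ring

private lemma member_deg {d : ℕ} (n : ℕ) (hn2 : 2 ≤ n) (g : Polynomial ℤ) (hm : g.Monic) (hn : g.natDegree = n) (a e : Fin d → ℤ) (m : Fin d → ℕ) :
    (member g a e m).natDegree = n := by
  have h1 : member g a e m = g + (Polynomial.C (form a m) * Polynomial.X + Polynomial.C (form e m)) := by
    unfold member
    ring
  have h2 : (Polynomial.C (form a m) * Polynomial.X + Polynomial.C (form e m)).degree < g.degree := by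
    rw [Polynomial.degree_eq_natDegree hm.ne_zero, hn]
    refine lt_of_le_of_lt Polynomial.degree_linear_le ?_
    exact_mod_cast (by omega : 1 < n)
  rw [h1, ← hn]
  exact Polynomial.natDegree_eq_of_degree_eq (Polynomial.degree_add_eq_left_of_degree_lt h2)

private lemma member_map {d : ℕ} (p : ℕ) (hp : p.Prime) (g : Polynomial ℤ) (a e : Fin d → ℤ) (m : Fin d → ℕ) :
    haveI : Fact p.Prime := ⟨hp⟩
    (member g a e m).map (Int.castRingHom (ZMod p)) =
      fam (g.map (Int.castRingHom (ZMod p))) (∑ i, (m i : ZMod p) * ((a i : ℤ) : ZMod p), ∑ i, (m i : ZMod p) * ((e i : ℤ) : ZMod p)) := by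
  have hf : Fact p.Prime := ⟨hp⟩
  unfold member fam form
  rw [Polynomial.map_add, Polynomial.map_add, Polynomial.map_mul, Polynomial.map_C, Polynomial.map_C, Polynomial.map_X]
  have h1 : ∀ u : Fin d → ℤ, (Int.castRingHom (ZMod p)) (∑ l, (m l : ℤ) * u l) = ∑ i, (m i : ZMod p) * ((u i : ℤ) : ZMod p) := by
    intro u
    rw [map_sum]
    refine sum_congr rfl fun i _ => ?_
    rw [map_mul, Int.coe_castRingHom]
    push_cast
    rfl
  rw [h1, h1]

/-- **A normal law for truncated central values in thin families of fields.** Let a base `b ≥ 2`, integers `d ≥ 1`, `n ≥ 2` and `ε > 0` be given. There is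
`c > 0` such that for all monic polynomials `g` of degree `n` with integer coefficients, all integers `r_l`, `K_l` (`l = 1, ..., d`) with `2 r_l ≤ K_l` and all `x` with
`log log x ≥ 1 / c` and `x ≤ exp (c √r_l)` for all `l` the following holds.

Let `0 ≤ N_l < b ^ K_l` be arbitrary integers, prescribe for every position `j` a digit `f l j` different from the digit of `N_l` in base `b`, and let `a`, `e` be linear
forms with integer coefficients in `d` variables which satisfy `Free`. If one chooses `r_l` of the `K_l` positions and replaces the digits of `N_l` at these positions, then for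
every real `t` the proportion of the choices for which, `m` being the vector obtained and `K = ℚ[X]/(g + a (m) X + e (m))`, the product `P` over the primes `p ≤ x`
of the Euler factors of `ζ_K (s) / ζ (s)` at `s = 1 / 2` satisfies `P ≤ √(log x) exp (t √(log log x))`
differs from the value `Φ (t)` of the distribution function of the standard normal law by at most `ε`. -/
theorem result (b d n : ℕ) (hb : 2 ≤ b) (hd : 1 ≤ d) (hn2 : 2 ≤ n) (ε : ℝ) (hε : 0 < ε) :
    ∃ c : ℝ, 0 < c ∧ ∀ g : Polynomial ℤ, g.Monic → g.natDegree = n →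
    ∀ (K r : Fin d → ℕ) (x : ℕ), (∀ l, 2 * r l ≤ K l) → 1 / c ≤ Real.log (Real.log x) → (∀ l, (x : ℝ) ≤ Real.exp (c * Real.sqrt (r l))) →
    ∀ N : Fin d → ℕ, (∀ l, N l < b ^ K l) → ∀ f : Fin d → ℕ → ℕ, (∀ l j, f l j < b ∧ f l j ≠ digit b j (N l)) →
    ∀ a e : Fin d → ℤ, Free a e → ∀ t : ℝ,
      |(choices b K r N f (fun m => product (member g a e m) x ≤ Real.sqrt (Real.log x) * Real.exp (t * Real.sqrt (Real.log (Real.log x)))) : ℝ) -
        (ProbabilityTheory.gaussianReal 0 1).real (Set.Iic t) * ∏ l, ((K l).choose (r l) : ℝ)| ≤ ε * ∏ l, ((K l).choose (r l) : ℝ) := by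
  classical
  obtain ⟨y, hy⟩ : ∃ y : ℕ, y = b * b + 64 := ⟨_, rfl⟩
  have hy64 : 64 ≤ y := by omega
  have hyr : (64 : ℝ) ≤ y := by exact_mod_cast hy64
  have hlogy : 1 ≤ Real.log y := by
    rw [Real.le_log_iff_exp_le (by linarith)]
    have := Real.exp_one_lt_d9
    linarith
  have hllogy : 0 ≤ Real.log (Real.log y) := Real.log_nonneg hlogy
  obtain ⟨S, hS⟩ : ∃ S : ℝ, S = ∑ p ∈ range (y + 1), (3 + 3 * (n : ℝ) ^ 2) := ⟨_, rfl⟩
  have hS0 : 0 ≤ S := by rw [hS]; positivity
  obtain ⟨C₂, hC₂⟩ : ∃ C₂ : ℝ, C₂ = S + 1 + Real.log (Real.log y) := ⟨_, rfl⟩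
  have hC₂0 : 0 ≤ C₂ := by rw [hC₂]; positivity
  obtain ⟨c₁, hc₁, key⟩ := clt_pin b d hb hd (1 / 2) 1 (2 * ((n : ℝ) + 1) ^ 2) (40 * ((n : ℝ) + 1) ^ 4) C₂ ε one_pos (by positivity) (by positivity) hC₂0 hε
  obtain ⟨c, hc⟩ : ∃ c : ℝ, c = min c₁ (min 1 (1 / ((y : ℝ) + 3))) := ⟨_, rfl⟩
  have hc0 : 0 < c := by rw [hc]; exact lt_min hc₁ (lt_min one_pos (by positivity))
  have hca : c ≤ c₁ := by rw [hc]; exact min_le_left _ _
  have hcb : c ≤ 1 := by rw [hc]; exact (min_le_right _ _).trans (min_le_left _ _)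
  have hcd : c ≤ 1 / ((y : ℝ) + 3) := by rw [hc]; exact (min_le_right _ _).trans (min_le_right _ _)
  refine ⟨c, hc0, fun g hgm hgn K r x hrK hlx hxr N hN f hf a e hae t => ?_⟩
  obtain ⟨l, hl⟩ : ∃ l : ℝ, l = Real.log (Real.log x) := ⟨_, rfl⟩
  rw [← hl] at hlx ⊢
  have hly : (y : ℝ) + 3 ≤ l := by
    refine le_trans ?_ hlx
    rw [le_div_iff₀ hc0]
    calc ((y : ℝ) + 3) * c ≤ ((y : ℝ) + 3) * (1 / ((y : ℝ) + 3)) := mul_le_mul_of_nonneg_left hcd (by positivity)
      _ = 1 := by field_simp
  have hl0 : 0 < l := by linarith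
  have hx1 : 1 ≤ x := by
    by_contra h
    have h1 : x = 0 := by omega
    rw [h1, Nat.cast_zero, Real.log_zero, Real.log_zero] at hl
    linarith
  have hx0 : (0 : ℝ) < x := by exact_mod_cast hx1
  have hlogx0 : 0 ≤ Real.log x := Real.log_nonneg (by exact_mod_cast hx1)
  have hlogx : 0 < Real.log x := by
    rcases hlogx0.eq_or_lt with h | h
    · rw [← h, Real.log_zero] at hl
      linarith
    · exact h
  have hxy : (y : ℝ) + 3 ≤ x := by
    have h1 := Real.log_le_sub_one_of_pos hlogx
    have h2 := Real.log_le_sub_one_of_pos hx0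
    linarith
  have hxyn : y + 3 ≤ x := by exact_mod_cast hxy
  have hla : |l - la y x| ≤ C₂ := by
    have h2 : la y x = l - Real.log (Real.log y) := by
      unfold la
      rw [Real.log_div (by linarith) (by linarith), hl]
    rw [h2, hC₂, sub_sub_cancel, abs_of_nonneg hllogy]
    linarith
  obtain ⟨G, hG⟩ : ∃ G : ℕ → (Fin d → ℕ) → ℝ, G = fun p m => Real.log (factor p (member g a e m)) := ⟨_, rfl⟩
  have hGlk : ∀ (p : ℕ) (hp : p.Prime), ∀ m, haveI : Fact p.Prime := ⟨hp⟩
      G p m = lk p n (fam (g.map (Int.castRingHom (ZMod p))) (∑ i, (m i : ZMod p) * ((a i : ℤ) : ZMod p), ∑ i, (m i : ZMod p) * ((e i : ℤ) : ZMod p))) := by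
    intro p hp m
    have hfp : Fact p.Prime := ⟨hp⟩
    rw [hG]
    show Real.log (factor p (member g a e m)) = _
    rw [log_factor p hp _ n (member_deg n hn2 g hgm hgn a e m), member_map p hp]
  have hgp : ∀ (p : ℕ) (hp : p.Prime), (g.map (Int.castRingHom (ZMod p))).Monic ∧ (g.map (Int.castRingHom (ZMod p))).natDegree = n := by
    intro p hp
    have hfp : Fact p.Prime := ⟨hp⟩
    refine ⟨hgm.map _, ?_⟩
    rw [hgm.natDegree_map, hgn]
  obtain ⟨l₀, l₁, ha0, he0, ha1, he1⟩ := hae
  have hmeans : ∀ (p : ℕ) (hp : p.Prime), y < p → |mean d p (G p) - 1 / 2 / p| ≤ 40 * ((n : ℝ) + 1) ^ 4 / (p : ℝ) ^ (3 / 2 : ℝ) ∧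
      |mean d p (fun m => G p m ^ 2) - 1 / p| ≤ 40 * ((n : ℝ) + 1) ^ 4 / (p : ℝ) ^ (3 / 2 : ℝ) := by
    intro p hp hyp
    have hfp : Fact p.Prime := ⟨hp⟩
    have h64 : 64 ≤ p := by omega
    obtain ⟨h1, h2⟩ := lk_mom h64 n hn2 (g.map (Int.castRingHom (ZMod p))) (hgp p hp).1 (hgp p hp).2
    have h3 := mean_two (p := p) (fun i => ((a i : ℤ) : ZMod p)) (fun i => ((e i : ℤ) : ZMod p)) l₀ l₁ (by rw [ha0, Int.cast_one])
      (by rw [he0, Int.cast_zero]) (by rw [ha1, Int.cast_zero]) (by rw [he1, Int.cast_one]) (fun s t => lk p n (fam (g.map (Int.castRingHom (ZMod p))) (s, t)))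
    have h4 := mean_two (p := p) (fun i => ((a i : ℤ) : ZMod p)) (fun i => ((e i : ℤ) : ZMod p)) l₀ l₁ (by rw [ha0, Int.cast_one])
      (by rw [he0, Int.cast_zero]) (by rw [ha1, Int.cast_zero]) (by rw [he1, Int.cast_one]) (fun s t => lk p n (fam (g.map (Int.castRingHom (ZMod p))) (s, t)) ^ 2)
    have h5 : mean d p (G p) = (∑ z : ZMod p × ZMod p, lk p n (fam (g.map (Int.castRingHom (ZMod p))) z)) / (p : ℝ) ^ 2 := by
      refine Eq.trans ?_ h3
      congr 1
      funext m
      exact hGlk p hp m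
    have h6 : mean d p (fun m => G p m ^ 2) = (∑ z : ZMod p × ZMod p, lk p n (fam (g.map (Int.castRingHom (ZMod p))) z) ^ 2) / (p : ℝ) ^ 2 := by
      refine Eq.trans ?_ h4
      congr 1
      funext m
      rw [hGlk p hp m]
    rw [h5, h6]
    exact ⟨h1, h2⟩
  have hprodpos : ∀ h : Polynomial ℤ, 0 < product h x := by
    intro h
    unfold product
    exact prod_pos fun p hp => factor_pos p (mem_filter.1 hp).2 h
  have hZ : ∀ m, |Real.log (product (member g a e m) x) - ∑ p ∈ pin y x, G p m| ≤ C₂ := by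
    intro m
    have h1 : Real.log (product (member g a e m) x) = ∑ p ∈ (range (x + 1)).filter Nat.Prime, G p m := by
      unfold product
      rw [Real.log_prod (fun p hp => (factor_pos p (mem_filter.1 hp).2 _).ne'), hG]
    have h2 : (range (x + 1)).filter Nat.Prime = ((range (y + 1)).filter Nat.Prime) ∪ pin y x := by
      ext p
      rw [mem_union, mem_filter, mem_filter, mem_pin, mem_range, mem_range]
      constructor
      · rintro ⟨h3, h4⟩
        by_cases h5 : p < y + 1
        · exact Or.inl ⟨h5, h4⟩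
        · exact Or.inr ⟨⟨by omega, by omega⟩, h4⟩
      · rintro (⟨h3, h4⟩ | ⟨⟨h3, h5⟩, h4⟩)
        · exact ⟨by omega, h4⟩
        · exact ⟨by omega, h4⟩
    have h3 : Disjoint ((range (y + 1)).filter Nat.Prime) (pin y x) := by
      rw [disjoint_left]
      intro p hp hp'
      rw [mem_filter, mem_range] at hp
      rw [mem_pin] at hp'
      omega
    rw [h1, h2, sum_union h3, add_sub_cancel_right]
    have h4 : |∑ p ∈ (range (y + 1)).filter Nat.Prime, G p m| ≤ S := by
      refine (abs_sum_le_sum_abs _ _).trans ?_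
      have h5 : ∀ p ∈ (range (y + 1)).filter Nat.Prime, |G p m| ≤ 3 + 3 * (n : ℝ) ^ 2 := by
        intro p hp
        have hp' := (mem_filter.1 hp).2
        have hfp : Fact p.Prime := ⟨hp'⟩
        rw [hGlk p hp' m]
        obtain ⟨h6, h7⟩ := fam_deg n hn2 _ (hgp p hp').1 (hgp p hp').2 (∑ i, (m i : ZMod p) * ((a i : ℤ) : ZMod p), ∑ i, (m i : ZMod p) * ((e i : ℤ) : ZMod p))
        exact lk_crude n _ h6 h7
      refine (sum_le_sum h5).trans ?_
      rw [hS]
      exact sum_le_sum_of_subset_of_nonneg (filter_subset _ _) fun p _ _ => by positivity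
    rw [hC₂]
    linarith
  have h := key r K y x hrK (by omega) (by omega) (by omega) l hla ((one_div_le_one_div_of_le hc0 hca).trans hlx) (fun i => by
      have h1 : Real.log x ≤ c * Real.sqrt (r i) := by
        rw [Real.log_le_iff_le_exp hx0]
        exact hxr i
      calc Real.log x ^ 2 ≤ (c * Real.sqrt (r i)) ^ 2 := pow_le_pow_left₀ hlogx0 h1 2
        _ = (c * c) * r i := by rw [mul_pow, Real.sq_sqrt (Nat.cast_nonneg _)]; ring
        _ ≤ c₁ * r i := by
            apply mul_le_mul_of_nonneg_right _ (Nat.cast_nonneg _)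
            nlinarith) N hN f hf G
    (fun p hp hyp m => by
      have hfp : Fact p.Prime := ⟨hp⟩
      have e1 : ∀ u : Fin d → ℤ, ∑ i, (m i : ZMod p) * ((u i : ℤ) : ZMod p) = ∑ i, ((m i % p : ℕ) : ZMod p) * ((u i : ℤ) : ZMod p) :=
        fun u => sum_congr rfl fun i _ => by rw [ZMod.natCast_mod]
      rw [hGlk p hp m, hGlk p hp (fun i => m i % p), e1 a, e1 e])
    (fun p hp hyp m => by
      have hfp : Fact p.Prime := ⟨hp⟩
      rw [hGlk p hp m]
      obtain ⟨h6, h7⟩ := fam_deg n hn2 _ (hgp p hp).1 (hgp p hp).2 (∑ i, (m i : ZMod p) * ((a i : ℤ) : ZMod p), ∑ i, (m i : ZMod p) * ((e i : ℤ) : ZMod p))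
      exact (lk_size (by omega) n hn2 _ h6 h7).2.1)
    (fun p hp hyp => (hmeans p hp hyp).1) (fun p hp hyp => (hmeans p hp hyp).2)
    (fun m => Real.log (product (member g a e m) x)) hZ t
  have hev : ∀ m, ((Real.log (product (member g a e m) x) - 1 / 2 * l) / Real.sqrt (1 * l) ≤ t) ↔
      product (member g a e m) x ≤ Real.sqrt (Real.log x) * Real.exp (t * Real.sqrt l) := by
    intro m
    rw [one_mul, div_le_iff₀ (Real.sqrt_pos.2 hl0), ← Real.log_le_log_iff (hprodpos _) (by positivity),
      Real.log_mul (by positivity) (by positivity), Real.log_exp, Real.log_sqrt hlogx.le, ← hl]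
    constructor <;> intro h <;> linarith
  have hcount : (choices b K r N f (fun m => product (member g a e m) x ≤ Real.sqrt (Real.log x) * Real.exp (t * Real.sqrt l)) : ℝ) =
      (((Fintype.piFinset (fun i => powersetCard (r i) (range (K i)))).filter
      (fun S => (Real.log (product (member g a e (fun i => Pool.Agent.TH894.SM.change b (K i) (N i) (f i) (S i))) x) -
        1 / 2 * l) / Real.sqrt (1 * l) ≤ t)).card : ℝ) := by
    unfold choices
    congr 2
    apply filter_congr
    intro S _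
    rw [hev]
    rfl
  rw [hcount]
  exact h

end Pool.Agent.Results.MP_347b49_nt.FewDigitCentralLaw
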