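import Pool.Agent.X108.Inc
import Pool.Agent.X108.L0
import Pool.Agent.Y766.R8.PC
import Pool.Agent.Y46.R3.Wey
import Pool.Agent.Y779.R3.Klo
import Pool.Agent.Y870.R3.Phi
import Pool.Agent.Y155.R7.Sq
import Pool.Agent.Y924.R7.Br
import Pool.Agent.Y924.R7.Inj
import Pool.Agent.Y924.R7.Lin
import Pool.Agent.Y924.R7.Vdc
import Pool.Agent.Y948.R7.Td
import Pool.Agent.Y948.R7.Var
import Pool.Agent.Y317.R7.Cmp
import Pool.Agent.Y287.R7.Cnt

/-!
# Non-vanishing on the critical line in every coset of `q^(1/4 + δ)` characters, `q = p^ν`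

Let `q = p^ν`.  The Dirichlet characters modulo `q` are the irreducible characters of the Galois group
of the field of the `q`-th roots of unity; let `χ` be one of conductor `q`.  The characters whose
restriction to the Galois group over the field of the `p^m`-th roots of unity is that of `χ` are the
`φ(p^m)` products `χθ`, `θ` modulo `p^m`.  If `p^m ≥ q^(1/4 + δ)` (and `m ≤ ν / 2`), then for every `t`
with `(1 + |t|)^A ≤ q / C` at least

`q^(-ε) p^(2m) / (p^m + q^(19/58))`

of these characters satisfy `|L(1/2 + it, χθ)| ≥ q^(-ε)`.  In particular (`t = 0`) every coset of at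
least `q^(1/4 + δ)` primitive characters contains characters with `L(1/2, χθ) ≠ 0`, and if
`p^m ≥ q^(19/58)` their number is at least `q^(-ε) p^m`.

Proof.  The mean square over the coset is the theorem of the starting file
`MP_52e316_nt/SubWeylPrimePowers`.  The first moment is twisted by the value at a small number `l₀`, which
is chosen such that the (`p`-adic) frequency of `χ` along the progression `l₀ + p^m j` is not small;
the short sums of `χ` along this progression are bounded by completion (`Pool.Agent.X108.Inc`).  The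
deduction was prepared in the library in `Pool.Agent.Y766.R8` (helper766 of an earlier round), under the
hypotheses `S_INC` (proved in `Pool.Agent.X108.Inc`) and `S_L0` (proved in `Pool.Agent.X108.L0`).
-/

set_option autoImplicit false

namespace Pool.Agent.Results.MP_347b49_nt.PrimePowerCosets

theorem result : ∀ δ ε : ℝ, 0 < δ → 0 < ε → ∃ (ν₀ A : ℕ) (C : ℝ), 1 ≤ C ∧
    ∀ (p : ℕ) [Fact p.Prime], 7 ≤ p → ∀ (ν m : ℕ) (h : m < ν), ν₀ ≤ ν → 2 * m ≤ ν →
    ((p : ℝ) ^ ν) ^ (1 / 4 + δ) ≤ (p : ℝ) ^ m →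
    ∀ χ : DirichletCharacter ℂ (p ^ ν), χ.IsPrimitive →
    ∀ t : ℝ, C * (1 + |t|) ^ A ≤ (p : ℝ) ^ ν →
    ((p : ℝ) ^ ν) ^ (-ε) * ((p : ℝ) ^ m) ^ 2 / ((p : ℝ) ^ m + ((p : ℝ) ^ ν) ^ (19 / 58 : ℝ)) ≤
      (Nat.card {θ : DirichletCharacter ℂ (p ^ m) // ((p : ℝ) ^ ν) ^ (-ε) ≤
        ‖(χ * DirichletCharacter.changeLevel (pow_dvd_pow p h.le) θ).LFunction
          (1 / 2 + (t : ℂ) * Complex.I)‖} : ℝ) := by
  intro δ ε hδ hε
  have hsq := Pool.Agent.Y155.R7.sq_main
  exact Pool.Agent.Y766.R8.count_small Pool.Agent.X108.Inc.inc Pool.Agent.X108.L0.l0ex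
    { sq := hsq
      td := Pool.Agent.Y948.R7.td hsq
      var := Pool.Agent.Y948.R7.var hsq
      inj := Pool.Agent.Y924.R7.Inj.inj hsq
      lin := Pool.Agent.Y924.R7.Lin.lin
      vdc := Pool.Agent.Y924.R7.Vdc.vdc
      cnt := Pool.Agent.Y287.R7.cnt
      br := Pool.Agent.Y924.R7.Br.br hsq
      cmp := Pool.Agent.Y317.R7.Cmp.cmp
      klo := Pool.Agent.Y779.R3.klo
      phi := Pool.Agent.Y870.R3.phi
      wey := Pool.Agent.Y46.R3.wey } hδ hε

end Pool.Agent.Results.MP_347b49_nt.PrimePowerCosets
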