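import Mathlib
import Pool.Agent.X21.Wr.T4

/-!
# Central values of the L-functions of spin characters

`Pool.Agent.H541R3.ART.Irr G` is the set of irreducible complex characters of the finite group `G`.

`Pool.Agent.H541R3.ART.ArtinData G s₀` is a family of functions with the formal properties of the
Artin L-functions of a Galois extension `E/K` with group `G` near a point `s₀ ≠ 1`: functions `L χ`
for the irreducible characters `χ` of `G`, meromorphic and not identically zero near `s₀` (Brauer),
and `Lin H ψ` for the linear characters `ψ` of the subgroups `H`, without pole at `s₀` (Artin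
reciprocity and Hecke), such that `Lin H ψ` is the product of the `L χ ^ ⟨χ|_H, ψ⟩` (induction). In
particular `Lin U 1` stands for the Dedekind zeta function of the fixed field of `U`.

`Pool.Agent.X21.Ce.nu χ` is the Frobenius-Schur indicator `|G|⁻¹ ∑ χ (g²)`.

`Pool.Agent.X21.Ce.CentralData G` is `ArtinData G (1 / 2)` together with the functional equation:
for every orthogonal (`nu φ = 1`) irreducible character `φ` of a subgroup `H` the function
`P(s) = ∏ L χ (s) ^ ⟨χ|_H, φ⟩` (the L-function of `φ` over the fixed field of `H`) satisfies
`γ(s) P(s) = γ(1 - s) P(1 - s)` near `1 / 2` for some `γ` which is analytic and not zero at `1 / 2`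
(functional equation of Artin and Hecke; the root number is `1` by the theorem of Fröhlich and
Queyranne).

`Pool.Agent.X21.Qd.IsRel A U η F` says that `F` is near the point the product of the
`L χ ^ ⟨χ|_U, η⟩`, that is, the L-function of `η` over the fixed field of `U`.

`Pool.Agent.X21.Sp.Clear A z`: the functions `L χ` are holomorphic and not zero at the point for all
irreducible `χ` with `χ z ≠ χ 1`, so are the L-functions over the fixed field of any subgroup
`U ∋ z` of all irreducible `η` of `U` with `η z ≠ η 1`, and the zeta functions of the fixed fields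
of `U` and of `U ⟨z⟩` have the same order at the point for all subgroups `U`.

`Pool.Agent.X21.Sp.Gap A z m`: the zeta functions of `E` and of the fixed field of `z` have orders
`r` and `r₀` at the point with `r = r₀ + a m` for some `a : ℕ`, and `r < r₀ + m` implies `Clear`.

`Pool.Agent.X21.Sp.IsDT σ` says that `σ` is a product of two disjoint transpositions.

`Pool.Agent.X21.Sp.IsSpin π z`, for a homomorphism `π` of a group `Γ` to the permutations of a
finite set, says that the image contains all even permutations, that the kernel is `{1, z}` with a
central element `z ≠ 1` of order two, and that `g² = z` whenever `π g` is a product of two disjoint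
transpositions. So `Γ` is the double cover `2.A_n` of the alternating group, or one of the two
double covers of the symmetric group.
-/

set_option autoImplicit false

open Pool.Agent.H541R3.ART Pool.Agent.X21.Qd Pool.Agent.X21.Ce Pool.Agent.X21.Sp
  Pool.Agent.X21.Wr Equiv

/-- Let `G` be the group of a Galois extension `E/K` and `z` a central element of order two of `G`,
with fixed field `F = E ^ z`. Let `r` and `r₀` be the orders of `ζ_E` and `ζ_F` at the point in
question.
(1) Let `D` be a subgroup of `G` which does not contain `z` and such that `d` and `d z` are conjugate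
in `G` for all `d ∈ D`, `d ≠ 1`. At every point `s₀ ≠ 1` the number `r - r₀` is a nonnegative
multiple of `|D|`, and if it is zero then the L-functions of all irreducible characters `χ` of `G`
with `χ z ≠ χ 1` are holomorphic and not zero at `s₀`, and so are the L-functions over the fixed
field of any subgroup `U ∋ z` of all irreducible characters `η` of `U` with `η z ≠ η 1`. At the
central point `s₀ = 1 / 2` the difference `r - r₀` is a multiple of `2 |D|`.
(2) Let `G` contain a double cover `H` of the alternating or symmetric group of degree `n` with
central element `z`, `q = ⌊n / 8⌋`, and let `b` be the number of ones in the binary expansion of `q`.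
Then there is such a subgroup `D` of order `2 ^ (4 q - b)`. So `r - r₀` is a multiple of
`2 ^ (4 q - b)` at every point and a multiple of `2 * 2 ^ (4 q - b)` at `1 / 2`. In particular all
these L-functions, among them those of the symplectic characters which are nontrivial on `z`, are
not zero at `1 / 2` if `r < r₀ + 2 * 2 ^ (4 q - b)`. (If `n ≥ 8` is a power of two this is
`r₀ + 2 ^ (n / 2)`; here `2 ^ (4 q - b) = 2 ^ (n / 2 - 1)` is the degree of the basic spin
characters of `2.A_n`.) -/
theorem Pool.Agent.Results.MP_347b49_nt.SpinCharacters.result :
    (∀ (G : Type) [Group G] [Finite G] (z : G), z ≠ 1 → z * z = 1 → (∀ g : G, g * z = z * g) →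
      ∀ D : Subgroup G, z ∉ D → (∀ d ∈ D, d ≠ 1 → ∃ g : G, g * d * g⁻¹ = d * z) →
      (∀ (s₀ : ℂ) (A : ArtinData G s₀), Gap A z (Nat.card D)) ∧
      ∀ C : CentralData G, Gap C.toArtinData z (2 * Nat.card D)) ∧
    (∀ (G : Type) [Group G] [Finite G] (n : ℕ) (H : Subgroup G) (π : H →* Perm (Fin n)) (ζ : H),
      IsSpin π ζ → (∀ g : G, g * ζ = ζ * g) →
      (∃ D : Subgroup G, (ζ : G) ∉ D ∧
        Nat.card D = 2 ^ (4 * (n / 8) - (Nat.digits 2 (n / 8)).sum) ∧
        ∀ d ∈ D, d ≠ 1 → ∃ g : G, g * d * g⁻¹ = d * ζ) ∧
      (∀ (s₀ : ℂ) (A : ArtinData G s₀),
        Gap A (ζ : G) (2 ^ (4 * (n / 8) - (Nat.digits 2 (n / 8)).sum))) ∧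
      ∀ C : CentralData G,
        Gap C.toArtinData (ζ : G) (2 * 2 ^ (4 * (n / 8) - (Nat.digits 2 (n / 8)).sum))) :=
  ⟨fun _ _ _ _ h1 h2 h3 D hzD hD => gap_of_compl h1 h2 h3 D hzD hD,
    fun _ _ _ _ H π ζ hs hzc => ⟨spin_sub H π ζ hs, gap_spin' H π ζ hs hzc⟩⟩
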